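import Mathlib
import Pool.Agent.H75.LR.Stm4
import Pool.Agent.H75.LR.Fin
import Pool.Agent.H15.LR.Dens
import Pool.Agent.H87.LR.RD

/-! Conformal Lorentzian structures on the contact hyperplanes (module SL). -/

open scoped Topology ContDiff Manifold
open Set Filter Bundle Pool.Agent.H826R2.WStmt Pool.Agent.W671.RStmt
open Pool.Agent.H75.PRStmt Pool.Agent.H75.PR Pool.Agent.H75.LR
open Pool.Agent.W671 Pool.Agent.H826R2 Pool.Agent.H87.LR Pool.Agent.H15.LR

noncomputable section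

set_option maxSynthPendingDepth 3
set_option linter.unusedSectionVars false

namespace Pool.Agent.H31.LR

universe u v

section alg

variable {E : Type u} [NormedAddCommGroup E] [NormedSpace ℝ E]

/-- projection to `ker a` along `r` -/
def pj (a : Cov E) (r : E) : E →L[ℝ] E :=
  ContinuousLinearMap.id ℝ E - ContinuousLinearMap.smulRight (show E →L[ℝ] ℝ from a) r

lemma pj_apply (a : Cov E) (r u : E) : pj a r u = u - ev a u • r := by
  rfl

/-- `c b (π u, π v) + a u a v` -/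
def sl (c : ℝ) (b : Bil E) (a : Cov E) (r : E) : Bil E :=
  (c • ContinuousLinearMap.bilinearComp (show E →L[ℝ] E →L[ℝ] ℝ from b) (pj a r) (pj a r) +
    (show E →L[ℝ] ℝ from a).smulRight (show E →L[ℝ] ℝ from a) : E →L[ℝ] E →L[ℝ] ℝ)

lemma sl_apply (c : ℝ) (b : Bil E) (a : Cov E) (r u v : E) :
    bev (sl c b a r) u v = c * bev b (pj a r u) (pj a r v) + ev a u * ev a v := by
  rfl

lemma ev_pj {a : Cov E} {r : E} (h : ev a r = 1) (u : E) : ev a (pj a r u) = 0 := by
  rw [pj_apply, sub_eq_add_neg, ← neg_smul, ev_add, ev_smul, h]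
  ring

lemma bev_zero (b : Bil E) (u : E) : bev b 0 u = 0 := by
  have := bev_smul b 0 (0 : E) u
  rwa [zero_smul, zero_mul] at this

lemma pj_of {a : Cov E} {r u : E} (h : ev a u = 0) : pj a r u = u := by
  rw [pj_apply, h, zero_smul, sub_zero]

lemma sl_lorentz {c : ℝ} (hc : 0 < c) {b : Bil E} {a : Cov E} {r : E} (ha : ev a r = 1)
    (hL : IsLorentzOn a b) : IsLorentz (sl c b a r) := by
  obtain ⟨w, hw0, hw, hpos⟩ := hL
  refine ⟨w, ?_, ?_⟩
  · rw [sl_apply, pj_of hw0, hw0]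
    have := mul_neg_of_pos_of_neg hc hw
    linarith
  · intro u hu huw
    rw [sl_apply, pj_of hw0, hw0, mul_zero, add_zero] at huw
    have huw' : bev b (pj a r u) w = 0 := by
      rcases mul_eq_zero.1 huw with h | h
      · exact absurd h hc.ne'
      · exact h
    rw [sl_apply]
    by_cases hp : pj a r u = 0
    · have h1 : ev a u ≠ 0 := by
        intro h2
        rw [pj_of h2] at hp
        exact hu hp
      rw [hp, bev_zero, mul_zero, zero_add]
      exact mul_self_pos.2 h1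
    · have h1 := hpos _ hp (ev_pj ha u) huw'
      have h2 := mul_pos hc h1
      have h3 := mul_self_nonneg (ev a u)
      linarith

lemma sl_nondeg {c : ℝ} (hc : 0 < c) {b : Bil E} {a : Cov E} {r : E} (ha : ev a r = 1)
    (hL : IsLorentzOn a b) {u : E} (h : ∀ v, bev (sl c b a r) u v = 0) : u = 0 := by
  by_contra hne
  obtain ⟨w, -, hw⟩ := sl_lorentz hc ha hL
  have h1 := hw u hne (h w)
  rw [h u] at h1
  exact lt_irrefl _ h1

/-- the endomorphism `c π + a ⊗ r` -/
def ss (c : ℝ) (a : Cov E) (r : E) : E →L[ℝ] E :=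
  c • pj a r + ContinuousLinearMap.smulRight (show E →L[ℝ] ℝ from a) r

lemma ss_apply (c : ℝ) (a : Cov E) (r u : E) : ss c a r u = c • pj a r u + ev a u • r := by
  rfl

lemma sl_ss {c : ℝ} {b : Bil E} {a : Cov E} {r : E} (ha : ev a r = 1) (u v : E) :
    bev (sl (c ^ 2) b a r) u v = bev (sl 1 b a r) (ss c a r u) (ss c a r v) := by
  have h1 : ∀ u, ev a (ss c a r u) = ev a u := by
    intro u
    rw [ss_apply, ev_add, ev_smul, ev_smul, ev_pj ha, ha]
    ring
  have h2 : ∀ u, pj a r (ss c a r u) = c • pj a r u := by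
    intro u
    rw [pj_apply, h1, ss_apply]
    abel
  rw [sl_apply, sl_apply, h1, h1, h2, h2, bev_smul, bev_smul']
  ring

lemma det_ss [FiniteDimensional ℝ E] {c : ℝ} (hc : c ≠ 0) {a : Cov E} {r : E} (ha : ev a r = 1) {n : ℕ}
    (hn : Module.finrank ℝ E = n + 1) : (ss c a r).det = c ^ n := by
  set b := Module.finBasis ℝ E with hb
  have h0 : ss c a r = c • (ContinuousLinearMap.id ℝ E +
      (c⁻¹ - 1) • ContinuousLinearMap.smulRight (show E →L[ℝ] ℝ from a) r) := by
    refine ContinuousLinearMap.ext fun u => ?_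
    rw [ss_apply, pj_apply]
    show c • (u - ev a u • r) + ev a u • r = c • (u + (c⁻¹ - 1) • (ev a u • r))
    have h9 : c • (c⁻¹ - 1) • (ev a u • r) = (1 - c) • (ev a u • r) := by
      rw [smul_smul, mul_sub, mul_inv_cancel₀ hc, mul_one]
    rw [smul_add, h9]
    module
  have h1 : (ss c a r).det = c ^ (n + 1) * LinearMap.det ((LinearMap.id : E →ₗ[ℝ] E) +
      (c⁻¹ - 1) • LinearMap.smulRight (show E →L[ℝ] ℝ from a).toLinearMap r) := by
    rw [h0, ← hn, ← LinearMap.det_smul]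
    rfl
  have h2 : LinearMap.det ((LinearMap.id : E →ₗ[ℝ] E) +
      (c⁻¹ - 1) • LinearMap.smulRight (show E →L[ℝ] ℝ from a).toLinearMap r) = c⁻¹ := by
    rw [← LinearMap.det_toMatrix b]
    have h3 : LinearMap.toMatrix b b ((LinearMap.id : E →ₗ[ℝ] E) +
      (c⁻¹ - 1) • LinearMap.smulRight (show E →L[ℝ] ℝ from a).toLinearMap r) =
      1 + Matrix.replicateCol Unit (fun i => (c⁻¹ - 1) * b.repr r i) *
        Matrix.replicateRow Unit (fun j => ev a (b j)) := by
      ext i j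
      rw [LinearMap.toMatrix_apply]
      simp only [LinearMap.add_apply, LinearMap.id_apply, LinearMap.smul_apply,
        LinearMap.smulRight_apply, map_add, map_smul, Finsupp.add_apply, Finsupp.smul_apply,
        smul_eq_mul, Matrix.add_apply, Matrix.mul_apply, Matrix.replicateCol_apply,
        Matrix.replicateRow_apply, Finset.univ_unique, Finset.sum_singleton, Module.Basis.repr_self]
      have h4 : (Finsupp.single j (1 : ℝ)) i = (1 : Matrix _ _ ℝ) i j := by
        rw [Matrix.one_apply, Finsupp.single_apply]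
        simp only [eq_comm]
      rw [h4]
      show _ + (c⁻¹ - 1) * (ev a (b j) * _) = _
      ring
    rw [h3, Matrix.det_one_add_replicateCol_mul_replicateRow]
    have h5 : (fun j => ev a (b j)) ⬝ᵥ (fun i => (c⁻¹ - 1) * b.repr r i) = (c⁻¹ - 1) * ev a r := by
      have h6 : ev a r = ∑ j, b.repr r j * ev a (b j) := by
        conv_lhs => rw [← b.sum_repr r]
        show (show E →L[ℝ] ℝ from a) (∑ j, b.repr r j • b j) = _
        rw [map_sum]
        refine Finset.sum_congr rfl fun j _ => ?_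
        rw [map_smul]; rfl
      rw [h6, dotProduct, Finset.mul_sum]
      refine Finset.sum_congr rfl fun j _ => ?_
      ring
    rw [h5, ha]
    ring
  rw [h1, h2, pow_succ, mul_assoc, mul_inv_cancel₀ hc, mul_one]

lemma dens_sl [FiniteDimensional ℝ E] {ι : Type*} [Fintype ι] [DecidableEq ι]
    (e : Module.Basis ι ℝ E) {c : ℝ} (hc : 0 < c) {b : Bil E} {a : Cov E} {r : E}
    (ha : ev a r = 1) {n : ℕ} (hn : Module.finrank ℝ E = 2 * n + 1) :
    dens e (sl c b a r) = c ^ n * dens e (sl 1 b a r) := by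
  have h1 : dens e (sl ((√c) ^ 2) b a r) = |(ss (√c) a r).det| * dens e (sl 1 b a r) :=
    dens_pull e (sl_ss ha)
  rw [Real.sq_sqrt hc.le, det_ss (Real.sqrt_pos.2 hc).ne' ha hn, pow_mul, Real.sq_sqrt hc.le,
    abs_of_pos (pow_pos hc n)] at h1
  exact h1

end alg

section smooth

variable {E : Type u} [NormedAddCommGroup E] [NormedSpace ℝ E] [FiniteDimensional ℝ E]
  {M : Type v} [TopologicalSpace M] [ChartedSpace E M] [IsManifold 𝓘(ℝ, E) ∞ M]

/-- subtracting a multiple of a smooth vector field is smooth on the tangent bundle -/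
lemma smooth_sub (R : (x : M) → TangentSpace 𝓘(ℝ, E) x)
    (hR : ContMDiff 𝓘(ℝ, E) 𝓘(ℝ, E).tangent ∞ (fun x => (⟨x, R x⟩ : TangentBundle 𝓘(ℝ, E) M)))
    (f : TangentBundle 𝓘(ℝ, E) M → ℝ) (hf : ContMDiff 𝓘(ℝ, E).tangent 𝓘(ℝ, ℝ) ∞ f) :
    ContMDiff 𝓘(ℝ, E).tangent 𝓘(ℝ, E).tangent ∞
      (fun v : TangentBundle 𝓘(ℝ, E) M =>
        (⟨v.1, v.2 - f v • R v.1⟩ : TangentBundle 𝓘(ℝ, E) M)) := by
  intro v
  have h1 : ContMDiffAt 𝓘(ℝ, E).tangent 𝓘(ℝ, E).tangent ∞
      (fun v : TangentBundle 𝓘(ℝ, E) M => (⟨v.1, R v.1⟩ : TangentBundle 𝓘(ℝ, E) M)) v :=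
    (hR v.1).comp v (contMDiff_proj _ v)
  have h2 : ContMDiffAt 𝓘(ℝ, E).tangent 𝓘(ℝ, E).tangent ∞
      (fun v : TangentBundle 𝓘(ℝ, E) M => v) v := contMDiffAt_id
  rw [contMDiffAt_totalSpace] at h1 h2 ⊢
  refine ⟨h2.1, ?_⟩
  have h3 := h2.2.sub ((hf v).smul h1.2)
  refine h3.congr_of_eventuallyEq ?_
  have h4 : ∀ᶠ w : TangentBundle 𝓘(ℝ, E) M in 𝓝 v, w.proj ∈
      (trivializationAt E (TangentSpace 𝓘(ℝ, E)) v.proj).baseSet :=
    (FiberBundle.continuous_proj E (TangentSpace 𝓘(ℝ, E))).continuousAt.preimage_mem_nhds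
      ((trivializationAt E (TangentSpace 𝓘(ℝ, E)) v.proj).open_baseSet.mem_nhds
        (mem_baseSet_trivializationAt E (TangentSpace 𝓘(ℝ, E)) v.proj))
  filter_upwards [h4] with w hw
  have h5 := (trivializationAt E (TangentSpace 𝓘(ℝ, E)) v.proj).linear ℝ hw
  have h6 : ((trivializationAt E (TangentSpace 𝓘(ℝ, E)) v.proj)
      ⟨w.proj, w.2 - f w • R w.proj⟩).2 = ((trivializationAt E (TangentSpace 𝓘(ℝ, E)) v.proj)
      ⟨w.proj, w.2⟩).2 - f w • ((trivializationAt E (TangentSpace 𝓘(ℝ, E)) v.proj)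
      ⟨w.proj, R w.proj⟩).2 := by
    rw [← h5.map_smul, h5.map_sub]
  exact h6

lemma dens_pos' {ι : Type} [Fintype ι] [DecidableEq ι] (e : Module.Basis ι ℝ E)
    {Q : Bil E} (hQ : ∀ u, (∀ v, bev Q u v = 0) → u = 0) : 0 < dens e Q := by
  refine dens_pos e fun u hu => hQ u fun v => ?_
  have h := DFunLike.congr_fun hu v
  exact h

/-- the conformal factor -/
def fac {ι : Type} [Fintype ι] [DecidableEq ι] (e : Module.Basis ι ℝ E) (n : ℕ)
    (B B' : M → Bil E) (x : M) : ℝ := (dens e (B x) / dens e (B' x)) ^ ((n : ℝ)⁻¹)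

lemma fac_pos {ι : Type} [Fintype ι] [DecidableEq ι] (e : Module.Basis ι ℝ E) (n : ℕ)
    {B B' : M → Bil E} (hB : ∀ x u, (∀ v, bev (B x) u v = 0) → u = 0)
    (hB' : ∀ x u, (∀ v, bev (B' x) u v = 0) → u = 0) (x : M) : 0 < fac e n B B' x := by
  exact Real.rpow_pos_of_pos (div_pos (dens_pos' e (hB x)) (dens_pos' e (hB' x))) _

lemma fac_chart {ι : Type} [Fintype ι] [DecidableEq ι] (e : Module.Basis ι ℝ E) (n : ℕ)
    {B B' : M → Bil E} {p : M} {y : E} (hy : y ∈ (ch E p).target) :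
    fac e n B B' ((ch E p).symm y) = (rho e B p y / rho e B' p y) ^ ((n : ℝ)⁻¹) := by
  have h1 : ∀ B : M → Bil E, rho e B p y = |(Dsy E p y).det| * dens e (B ((ch E p).symm y)) :=
    fun B => dens_pull e fun u v => rfl
  have h2 : (Dsy E p y).det ≠ 0 := by
    have h3 : Function.Injective (Dsy E p y : E →ₗ[ℝ] E) := by
      rw [injective_iff_map_eq_zero]
      intro u hu
      exact Dsy_injective hy hu
    have h4 := LinearMap.isUnit_det _ ((Module.End.isUnit_iff _).2
      ⟨h3, LinearMap.injective_iff_surjective.1 h3⟩)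
    exact h4.ne_zero
  rw [fac, h1 B, h1 B', mul_div_mul_left _ _ (abs_ne_zero.2 h2)]

lemma fac_smooth {ι : Type} [Fintype ι] [DecidableEq ι] (e : Module.Basis ι ℝ E) (n : ℕ)
    {B B' : M → Bil E} (hs : SmoothBil B) (hs' : SmoothBil B')
    (hB : ∀ x u, (∀ v, bev (B x) u v = 0) → u = 0)
    (hB' : ∀ x u, (∀ v, bev (B' x) u v = 0) → u = 0) :
    ContMDiff 𝓘(ℝ, E) 𝓘(ℝ, ℝ) ∞ (fac e n B B') := by
  intro p
  have h1 : ContDiffOn ℝ ∞ (fun y => (rho e B p y / rho e B' p y) ^ ((n : ℝ)⁻¹))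
      (ch E p).target := by
    refine ContDiffOn.rpow_const_of_ne ((contDiffOn_rho e hs hB).div (contDiffOn_rho e hs' hB')
      fun y hy => (rho_pos e hB' hy).ne') fun y hy =>
      (div_pos (rho_pos e hB hy) (rho_pos e hB' hy)).ne'
  have hp : ch E p p ∈ (ch E p).target := mem_extChartAt_target p
  have h2 : ContMDiffAt 𝓘(ℝ, E) 𝓘(ℝ, ℝ) ∞
      (fun y => (rho e B p y / rho e B' p y) ^ ((n : ℝ)⁻¹)) (ch E p p) :=
    (h1.contDiffAt ((isOpen_extChartAt_target p).mem_nhds hp)).contMDiffAt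
  have h3 : ContMDiffAt 𝓘(ℝ, E) 𝓘(ℝ, E) ∞ (ch E p) p := contMDiffAt_extChartAt
  have h4 := h2.comp p h3
  refine h4.congr_of_eventuallyEq ?_
  filter_upwards [extChartAt_source_mem_nhds (I := 𝓘(ℝ, E)) p] with x hx
  have h5 := fac_chart e n (B := B) (B' := B') ((ch E p).map_source hx)
  rw [(ch E p).left_inv hx] at h5
  exact h5

end smooth

theorem sl_thm : S_SL.{u, v} := by
  intro E _ _ _ hdim M _ _ _ _ _ α hα R hR Φ hΦ b hb hL hc
  have c : Wein.CD (toForm α) (fun x => (R x : TangentSpace 𝓘(ℝ, E) x)) := ⟨hα.toWein, hR.toWein⟩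
  have hRs := WU.smooth_reeb c
  have hRF := rf_of hα hR hΦ
  rcases isEmpty_or_nonempty M with hM | ⟨⟨x₀⟩⟩
  · refine ⟨b, ⟨hb.symm, fun x => (hM.false x).elim, hb.smooth⟩, fun x => (hM.false x).elim,
      fun t x => (hM.false x).elim, fun x => (hM.false x).elim⟩
  obtain ⟨n, hn⟩ := odd_of_contact hα hR x₀
  have hn0 : n ≠ 0 := by
    rintro rfl
    omega
  have hn0' : (n : ℝ) ≠ 0 := Nat.cast_ne_zero.2 hn0
  set e := Module.finBasis ℝ E with he
  have hSC := smoothCov_of hα.smooth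
  -- smoothness of the projected form
  have s2 : ContMDiff 𝓘(ℝ, E).tangent 𝓘(ℝ, ℝ) ∞
      (fun v : TangentBundle 𝓘(ℝ, E) M => ev (α v.1) v.2) := hα.smooth
  have s3 : ContMDiff 𝓘(ℝ, E).tangent 𝓘(ℝ, ℝ) ∞
      (fun v : TangentBundle 𝓘(ℝ, E) M => bev (b v.1) (pj (α v.1) (R v.1) v.2)
        (pj (α v.1) (R v.1) v.2)) := by
    refine (hb.smooth.comp (smooth_sub (fun x => (R x : TangentSpace 𝓘(ℝ, E) x)) hRs _ s2)).congr
      fun v => ?_
    exact congrArg (fun z => bev (b v.1) z z) (pj_apply (α v.1) (R v.1) v.2)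
  have key : ∀ φ : M → ℝ, (∀ x, 0 < φ x) → ContMDiff 𝓘(ℝ, E) 𝓘(ℝ, ℝ) ∞ φ →
      IsPseudoMetric (fun x => sl (φ x) (b x) (α x) (R x)) := by
    intro φ hφ hφs
    refine ⟨?_, ?_, ?_⟩
    · intro x u v
      rw [sl_apply, sl_apply, hb.symm x]
      ring
    · intro x u hu
      exact sl_nondeg (hφ x) (hR.unit x) (hL x) hu
    · have s4 : ContMDiff 𝓘(ℝ, E).tangent 𝓘(ℝ, ℝ) ∞
          (fun v : TangentBundle 𝓘(ℝ, E) M => φ v.1) := hφs.comp (contMDiff_proj _)
      refine ((s4.mul s3).add (s2.mul s2)).congr fun v => ?_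
      exact sl_apply (φ v.1) (b v.1) (α v.1) (R v.1) v.2 v.2
  have hB1 := key (fun _ => 1) (fun _ => one_pos) contMDiff_const
  set B' : M → Bil E := fun x => sl 1 (b x) (α x) (R x) with hB'
  have hWs := smooth_WW hSC
  have hWn := WW_nondeg hα hR
  have hBs : SmoothBil B' := fun p => contDiffOn_cBil hB1 p
  have hφ := fac_pos e n hWn hB1.nondeg
  have hφs := fac_smooth e n hWs hBs hWn hB1.nondeg
  set φ := fac e n (WW α) B' with hφd
  -- invariance
  have hpj : ∀ t x u, pj (α (Φ x t)) (R (Φ x t)) (D (E := E) (E' := E) (fun y => Φ y t) x u) =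
      D (E := E) (E' := E) (fun y => Φ y t) x (pj (α x) (R x) u) := by
    intro t x u
    have h1 : R (Φ x t) = D (E := E) (E' := E) (fun y => Φ y t) x (R x) :=
      (D_flow_R hRF x t).symm
    have h2 : ev (α (Φ x t)) (D (E := E) (E' := E) (fun y => Φ y t) x u) =
        ev (α x) u := hRF.strict t x u
    rw [pj_apply, pj_apply, h1, h2, map_sub, map_smul]
  have hev : ∀ t x u, ev (α (Φ x t)) (D (E := E) (E' := E) (fun y => Φ y t) x u) =
        ev (α x) u := fun t x u => hRF.strict t x u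
  have hinv : ∀ t x, ∀ l > 0, (∀ u v : E, ev (α x) u = 0 → ev (α x) v = 0 →
    bev (b (Φ x t)) (D (E := E) (E' := E) (fun y => Φ y t) x u)
      (D (E := E) (E' := E) (fun y => Φ y t) x v) = l * bev (b x) u v) → φ (Φ x t) * l = φ x := by
    intro t x l hl hlc
    set T := D (E := E) (E' := E) (fun y => Φ y t) x with hT
    have h1 : dens e (WW α x) = |T.det| * dens e (WW α (Φ x t)) := by
      refine dens_pull e fun u v => ?_
      have hf : Aut α (fun _ => (0 : E →L[ℝ] E →L[ℝ] ℝ)) (fun y => Φ y t) := by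
        refine ⟨?_, fun x u v => rfl, fun x u => hev t x u⟩
        exact hRF.smooth.comp (contMDiff_id.prodMk contMDiff_const)
      exact (WW_aut hSC hf x u v).symm
    have h2 : dens e (sl l (b x) (α x) (R x)) = |T.det| * dens e (B' (Φ x t)) := by
      refine dens_pull e fun u v => ?_
      show bev (sl l (b x) (α x) (R x)) u v = bev (B' (Φ x t)) (T u) (T v)
      rw [sl_apply, hB']
      simp only
      rw [sl_apply, hpj, hpj, hev, hev, hlc _ _ (ev_pj (hR.unit x) u) (ev_pj (hR.unit x) v), one_mul]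
    rw [dens_sl e hl (hR.unit x) hn] at h2
    have h3 : 0 < dens e (WW α x) := dens_pos' e (hWn x)
    have h4 : 0 < dens e (B' x) := dens_pos' e (hB1.nondeg x)
    have h3' : 0 < dens e (WW α (Φ x t)) := dens_pos' e (hWn (Φ x t))
    have h4' : 0 < dens e (B' (Φ x t)) := dens_pos' e (hB1.nondeg (Φ x t))
    have h5 : |T.det| ≠ 0 := by
      intro h6
      rw [h6, zero_mul] at h1
      exact h3.ne' h1
    have h6 : dens e (WW α (Φ x t)) / dens e (B' (Φ x t)) * l ^ n =
        dens e (WW α x) / dens e (B' x) := by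
      rw [h1, div_mul_eq_mul_div, div_eq_div_iff h4'.ne' h4.ne']
      have h7 : dens e (WW α (Φ x t)) * (l ^ n * dens e (B' x)) =
        dens e (WW α (Φ x t)) * (|T.det| * dens e (B' (Φ x t))) := by
        congr 1
      linarith
    rw [hφd]
    unfold fac
    rw [← h6, Real.mul_rpow (div_pos h3' h4').le (pow_pos hl n).le, Real.pow_rpow_inv_natCast hl.le hn0]
  refine ⟨fun x => sl (φ x) (b x) (α x) (R x), key φ hφ hφs, fun x =>
    sl_lorentz (hφ x) (hR.unit x) (hL x), ?_, ?_⟩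
  · intro t x u v
    obtain ⟨l, hl, hlc⟩ := hc t x
    rw [sl_apply, sl_apply, hpj, hpj, hev, hev, hlc _ _ (ev_pj (hR.unit x) u)
      (ev_pj (hR.unit x) v), ← hinv t x l hl hlc]
    ring
  · intro x u
    show bev (sl (φ x) (b x) (α x) (R x)) (R x) u = _
    have h1 : pj (α x) (R x) (R x) = 0 := by
      rw [pj_apply, hR.unit, one_smul, sub_self]
    rw [sl_apply, h1, bev_zero, hR.unit]
    ring

end Pool.Agent.H31.LR

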